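import Pool.Agent.helper95.FI4.SpecB

set_option autoImplicit false

namespace Pool.Agent.FI4

open Pool.Agent.helper58.DC Pool.Agent.DI Pool.Agent.GR Pool.Agent.OB Pool.Agent.DR Pool.Agent.FI Pool.Agent.FI3

theorem XRG : XRG_stmt := by
  classical
  intro p M hp G _ _ D θ hD
  have : Fact p.Prime := ⟨hp⟩
  set T := TT M D θ with hT
  let Q := T ⧸ (cz D).subgroupOf T
  have : Fintype Q := Fintype.ofFinite Q
  have hQ : Fintype.card Q = iI M D θ := by
    have h1 : iI M D θ = (cz D).relIndex T := rfl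
    rw [h1, Subgroup.relIndex, Subgroup.index, Nat.card_eq_fintype_card]
  let F : Q → Subgroup G := fun q => D ⊓ Subgroup.centralizer {((Quotient.out q : T) : G)}
  have hF : ∀ q : Q, q ≠ ((1 : T) : Q) → p * Nat.card (F q) ≤ Nat.card D := by
    intro q hq
    have h1 : F q ≤ D := inf_le_left
    have h2 : F q ≠ D := by
      intro h0
      apply hq
      have h3 : ((Quotient.out q : T) : G) ∈ cz D := by
        show ((Quotient.out q : T) : G) ∈ Subgroup.centralizer (D : Set G)
        rw [Subgroup.mem_centralizer_iff]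
        intro d hd
        have h4 : d ∈ F q := by rw [h0]; exact hd
        have h5 := (Subgroup.mem_centralizer_iff.mp h4.2) _ (Set.mem_singleton _)
        exact h5.symm
      have h6 : ((Quotient.out q : T) : Q) = q := Quotient.out_eq q
      rw [← h6, QuotientGroup.eq]
      show ((Quotient.out q : T)⁻¹ * 1) ∈ (cz D).subgroupOf T
      rw [mul_one]
      exact Subgroup.inv_mem _ (Subgroup.mem_subgroupOf.mpr h3)
    obtain ⟨k, hk⟩ := IsPGroup.iff_card.mp hD
    have h7 : (F q).relIndex D * Nat.card (F q) = Nat.card D := by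
      rw [mul_comm]
      have h10 := Subgroup.card_mul_index ((F q).subgroupOf D)
      rw [Nat.card_congr (Subgroup.subgroupOfEquivOfLe h1).toEquiv] at h10
      exact h10
    have h8 : (F q).relIndex D ∣ p ^ k := by rw [← hk, ← h7]; exact dvd_mul_right _ _
    obtain ⟨j, -, hj⟩ := (Nat.dvd_prime_pow hp).mp h8
    have h9 : j ≠ 0 := by
      rintro rfl
      rw [pow_zero] at hj
      exact h2 (le_antisymm h1 (Subgroup.relIndex_eq_one.mp hj))
    rw [← h7, hj]
    apply Nat.mul_le_mul_right
    calc p = p ^ 1 := (pow_one p).symm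
      _ ≤ p ^ j := Nat.pow_le_pow_right hp.pos (Nat.one_le_iff_ne_zero.mpr h9)
  have hcov : (D : Set G) \ RG M D θ ⊆
      ⋃ q ∈ (Finset.univ.erase ((1 : T) : Q)), (F q : Set G) := by
    rintro u ⟨hu, hnu⟩
    have h1 : ∃ t ∈ T, t * u = u * t ∧ t ∉ cz D := by
      by_contra hcon
      push Not at hcon
      exact hnu ⟨hu, hcon⟩
    obtain ⟨t, ht, htu, htc⟩ := h1
    have h2 : (((⟨t, ht⟩ : T) : Q)) ≠ ((1 : T) : Q) := by
      intro h0
      rw [QuotientGroup.eq] at h0
      have h3 : (⟨t, ht⟩ : T)⁻¹ ∈ (cz D).subgroupOf T := by simpa using h0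
      have h4 := Subgroup.mem_subgroupOf.mp (Subgroup.inv_mem _ h3)
      exact htc (by simpa using h4)
    rw [Set.mem_iUnion₂]
    refine ⟨((⟨t, ht⟩ : T) : Q), Finset.mem_erase.mpr ⟨h2, Finset.mem_univ _⟩, hu, ?_⟩
    show u ∈ Subgroup.centralizer {((Quotient.out (((⟨t, ht⟩ : T) : Q)) : T) : G)}
    rw [Subgroup.mem_centralizer_iff]
    intro s hs
    rw [Set.mem_singleton_iff] at hs
    rw [hs]
    set o : T := Quotient.out (((⟨t, ht⟩ : T) : Q)) with ho
    have h5 : ((o : T) : Q) = ((⟨t, ht⟩ : T) : Q) := Quotient.out_eq _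
    rw [QuotientGroup.eq] at h5
    have h6 : (o : G)⁻¹ * t ∈ cz D := h5
    have h7 : u * ((o : G)⁻¹ * t) = ((o : G)⁻¹ * t) * u := by
      have : (o : G)⁻¹ * t ∈ Subgroup.centralizer (D : Set G) := h6
      exact (Subgroup.mem_centralizer_iff.mp this) u hu
    have h8 : (o : G) * u * ((o : G)⁻¹ * t) = u * (o : G) * ((o : G)⁻¹ * t) := by
      rw [mul_assoc, h7]
      simp only [mul_assoc, mul_inv_cancel_left]
      exact htu
    exact mul_right_cancel h8
  have hRD : RG M D θ ⊆ (D : Set G) := fun u hu => hu.1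
  have hn : Nat.card D - (RG M D θ).ncard = ((D : Set G) \ RG M D θ).ncard := by
    rw [Set.ncard_sdiff hRD (Set.toFinite _)]
    rfl
  rw [hn]
  calc p * ((D : Set G) \ RG M D θ).ncard ≤
      p * ∑ q ∈ Finset.univ.erase ((1 : T) : Q), (F q : Set G).ncard := by
        apply Nat.mul_le_mul_left
        exact (Set.ncard_le_ncard hcov (Set.toFinite _)).trans (Finset.set_ncard_biUnion_le _ _)
    _ = ∑ q ∈ Finset.univ.erase ((1 : T) : Q), p * (F q : Set G).ncard := Finset.mul_sum _ _ _
    _ ≤ ∑ q ∈ Finset.univ.erase ((1 : T) : Q), Nat.card D := by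
        apply Finset.sum_le_sum
        intro q hq
        exact hF q (Finset.ne_of_mem_erase hq)
    _ = (iI M D θ - 1) * Nat.card D := by
        rw [Finset.sum_const, Finset.card_erase_of_mem (Finset.mem_univ _), Finset.card_univ, hQ,
          smul_eq_mul]

end Pool.Agent.FI4
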