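import Pool.Agent.helper12.FI4.SpecX

set_option autoImplicit false

namespace Pool.Agent.FI4

open Pool.Agent.helper58.DC Pool.Agent.DI Pool.Agent.GR Pool.Agent.OB Pool.Agent.DR Pool.Agent.FI Pool.Agent.FI3

theorem X8_mono {G : Type} [Group G] [Finite G] (p : ℕ) (D : Subgroup G) (F F' : Set (D → G))
    (h : F ⊆ F') (hF : Pool.Agent.FIW.SmallAut p D F') : Pool.Agent.FIW.SmallAut p D F := by
  have h1 : F.ncard ≤ F'.ncard := Set.ncard_le_ncard h (Set.toFinite _)
  rcases hF with hF | hF
  · exact Or.inl (lt_of_le_of_lt (Nat.mul_le_mul_left 3 h1) hF)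
  · right
    have h2 : (Pool.Agent.FIW.regularFor D F').ncard ≤ (Pool.Agent.FIW.regularFor D F).ncard := by
      apply Set.ncard_le_ncard _ (Set.toFinite _)
      intro u hu f hf
      exact hu f (h hf)
    calc 2 * (F.ncard * Nat.card D) ≤ 2 * (F'.ncard * Nat.card D) :=
          Nat.mul_le_mul_left 2 (Nat.mul_le_mul_right _ h1)
      _ < (p - 1) * (Pool.Agent.FIW.regularFor D F').ncard := hF
      _ ≤ _ := Nat.mul_le_mul_left _ h2

theorem X8 (hX7 : X7_stmt) (hIQR : Pool.Agent.TZ.IQR_stmt) (hYCM : Pool.Agent.TY.YCM_stmt)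
    (hYJ1 : Pool.Agent.TY.YJ1_stmt) (hRE : RE_stmt) (hST : ST_stmt) : X8_stmt := by
  intro p M hS G E A _ _ _ _ _ X hcyc hl hO D x θ χ hR hD hsm
  have hp : Fact p.Prime := ⟨hS.pr⟩
  have hχ : χ ∈ Irr G := hR.chi
  suffices h : ∀ n : ℕ, ∀ (E A : Type) [Group E] [Group A] [Finite E] (X : Extension G E A), Nat.card A = n →
      IsCyclic A → ¬ p ∣ Nat.card A → Pool.Agent.FIW.SmallAut p D (Pool.Agent.FIW.autos X M D θ ⊤) →
      ∀ d : ℤ, altSum X p M χ d ⊤ = 0 from h _ E A X rfl hcyc hl hsm
  intro n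
  induction n using Nat.strong_induction_on with
  | _ n ih =>
    intro E A _ _ _ X hn hcyc hl hsm d
    have hfA : Finite A := Finite.of_surjective X.proj X.proj_surjective
    by_cases hst : Stable X M χ
    · classical
      obtain ⟨R, hR1, hR2⟩ := hIQR G E A X p M hS.max hS.mem hcyc hl hO χ hχ hst
      have h0 := hR2 d
      have hz : ∑ b ∈ R, altSum (trivE E) p M b d ⊤ = 0 := by
        apply Finset.sum_eq_zero
        intro b hb
        exact hX7 p M hS G E A X hcyc hl hO D x θ χ hR hD hst hsm b (hR1 b hb).1 (hR1 b hb).2 d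
      rw [hz, mul_zero, hYCM A (fun U => altSum X p M χ d U)] at h0
      have : Fintype (Subgroup A) := Fintype.ofFinite _
      rw [finsum_eq_sum_of_fintype, ← Finset.add_sum_erase _ _ (Finset.mem_univ (⊤ : Subgroup A))] at h0
      have h1 : ∑ U ∈ (Finset.univ : Finset (Subgroup A)).erase ⊤,
          (Nat.card {x : A × A // Subgroup.closure {x.1, x.2} = U} : ℤ) *
            ∑ᶠ V : {V : Subgroup A // U ≤ V}, altSum X p M χ d V.1 = 0 := by
        refine Finset.sum_eq_zero fun U hU => ?_
        have hU' : U ≠ ⊤ := Finset.ne_of_mem_erase hU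
        rw [← hRE G E A X p M χ hχ d U]
        have h2 : Nat.card U < n := by
          rw [← hn]
          refine lt_of_le_of_ne (Nat.le_of_dvd Nat.card_pos (Subgroup.card_subgroup_dvd_card U)) ?_
          intro h3
          exact hU' (Subgroup.eq_top_of_card_eq U h3)
        have hUc : IsCyclic U := inferInstance
        have h5 : Pool.Agent.FIW.autos (resE X U) M D θ ⊤ ⊆ Pool.Agent.FIW.autos X M D θ ⊤ := by
          rintro f ⟨e, -, he1, he2, he3⟩
          exact ⟨(e : E), Subgroup.mem_top _, he1, he2, he3⟩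
        rw [ih (Nat.card U) h2 (U.comap X.proj) U (resE X U) rfl hUc
          (fun h4 => hl (h4.trans (Subgroup.card_subgroup_dvd_card U))) (X8_mono p D _ _ h5 hsm) d,
          mul_zero]
      rw [h1, add_zero] at h0
      have h3 : IsCyclic (⊤ : Subgroup A) := inferInstance
      rw [hYJ1 A ⊤ h3, Subgroup.card_top] at h0
      have h4 : ∑ᶠ V : {V : Subgroup A // ⊤ ≤ V}, altSum X p M χ d V.1 = altSum X p M χ d ⊤ := by
        have h5 : ∀ V : {V : Subgroup A // ⊤ ≤ V}, V = ⟨⊤, le_rfl⟩ := by
          rintro ⟨V, hV⟩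
          simpa using hV
        rw [finsum_eq_single _ (⟨⊤, le_rfl⟩ : {V : Subgroup A // ⊤ ≤ V})]
        intro V hV
        exact absurd (h5 V) hV
      rw [h4] at h0
      have h6 : (0 : ℤ) < (Pool.Agent.TY.J2 (Nat.card A) : ℤ) := by
        have : 0 < Pool.Agent.TY.J2 (Nat.card A) := by
          unfold Pool.Agent.TY.J2
          apply Finset.prod_pos
          intro l hl'
          have hlp : l.Prime := Nat.prime_of_mem_primeFactors hl'
          have h7 : 1 < l ^ 2 := Nat.one_lt_pow (by norm_num) hlp.one_lt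
          exact Nat.mul_pos (pow_pos hlp.pos _) (by omega)
        exact_mod_cast this
      rcases mul_eq_zero.mp h0.symm with h7 | h7
      · omega
      · exact h7
    · by_contra h2
      exact hst (hST G E A X p M χ hχ d h2)

end Pool.Agent.FI4
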