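import Mathlib

/-!
# The combinatorial lemma behind the bound `l(B) < (p - 1) / 2` (row `fi4:SPK`)

`2 * h + 1` is the prime `p`, `s` the set of the `p`-rational characters of the block, `t` the set of the regular elements of the
defect group, `f x u` the (integral) generalised decomposition number, `e u` the sign of `u`, `k x` the common residue.
-/

set_option autoImplicit false

namespace Pool.Agent.FI4

/-- Integers: `T (h + 2 - T) ^ 2 ≥ h (h + T - 1)` for `2 ≤ T`, `T ^ 2 < h`. -/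
theorem SPK_arith (h T : ℤ) (hT : 2 ≤ T) (hh : T ^ 2 < h) :
    h * (h + T - 1) ≤ T * (h + 2 - T) ^ 2 := by
  obtain ⟨w, rfl⟩ : ∃ w : ℤ, T = w + 2 := ⟨T - 2, by ring⟩
  obtain ⟨m, rfl⟩ : ∃ m : ℤ, h = (w + 2) ^ 2 + 1 + m := ⟨h - (w + 2) ^ 2 - 1, by ring⟩
  have hw : 0 ≤ w := by linarith
  have hm : 0 ≤ m := by linarith
  have key : (w + 2) * ((w + 2) ^ 2 + 1 + m + 2 - (w + 2)) ^ 2 -
      ((w + 2) ^ 2 + 1 + m) * ((w + 2) ^ 2 + 1 + m + (w + 2) - 1) =
      w ^ 5 + 7 * w ^ 4 + 22 * w ^ 3 + 37 * w ^ 2 + 36 * w + 20 +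
        m * (2 * w ^ 3 + 8 * w ^ 2 + 13 * w + 9) + m ^ 2 * (w + 1) := by ring
  have h0 : 0 ≤ w ^ 5 + 7 * w ^ 4 + 22 * w ^ 3 + 37 * w ^ 2 + 36 * w + 20 +
        m * (2 * w ^ 3 + 8 * w ^ 2 + 13 * w + 9) + m ^ 2 * (w + 1) := by positivity
  linarith

/-- The distance of `s` to the multiples of `p`, `0 ≤ s ≤ p`. -/
theorem SPK_dist (p e S σ μ : ℤ) (he : e = 1 ∨ e = -1) (hd : p ∣ e * S - σ) (hμ0 : 0 ≤ μ)
    (h1 : μ ≤ σ) (h2 : μ ≤ p - σ) : μ ^ 2 ≤ S ^ 2 := by
  obtain ⟨q, hq⟩ := hd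
  have hS : S ^ 2 = (e * S) ^ 2 := by
    rcases he with rfl | rfl <;> ring
  rw [hS]
  have hE : e * S = σ + p * q := by linarith
  rw [hE]
  have hp : 0 ≤ p := by linarith
  rcases le_or_gt 0 q with h | h
  · have : μ ≤ σ + p * q := by nlinarith [mul_nonneg hp h]
    nlinarith
  · have : μ ≤ -(σ + p * q) := by nlinarith [mul_nonneg hp (by linarith : (0:ℤ) ≤ -1 - q)]
    nlinarith

/-- Balanced residues. -/
theorem SPK_bal (h : ℕ) (k : ℤ) (hk : ¬ ((2 * h + 1 : ℕ) : ℤ) ∣ k) :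
    ∃ c g : ℤ, 1 ≤ c ∧ c ≤ h ∧ (g = 1 ∨ g = -1) ∧ ((2 * h + 1 : ℕ) : ℤ) ∣ g * k - c := by
  set p : ℤ := ((2 * h + 1 : ℕ) : ℤ) with hp
  have hpe : p = 2 * (h : ℤ) + 1 := by rw [hp]; push_cast; ring
  have hp0 : 0 < p := by rw [hpe]; positivity
  have h1 := Int.emod_nonneg k (ne_of_gt hp0)
  have h2 := Int.emod_lt_of_pos k hp0
  have h3 := Int.emod_add_mul_ediv k p
  have h4 : k % p ≠ 0 := fun h => hk (Int.dvd_of_emod_eq_zero h)
  rcases le_or_gt (k % p) h with hc | hc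
  · exact ⟨k % p, 1, by omega, hc, Or.inl rfl, ⟨k / p, by linarith⟩⟩
  · refine ⟨p - k % p, -1, by omega, by omega, Or.inr rfl, ⟨-(k / p) - 1, ?_⟩⟩
    linarith [h3, mul_comm p (-(k / p) - 1), show p * (-(k / p) - 1) = -(p * (k / p)) - p by ring]

/-- The combinatorial lemma. -/
theorem SPK {X U : Type} (s : Finset X) (t : Finset U) (h : ℕ) (hh : 1 ≤ h) (e : U → ℤ)
    (he : ∀ u ∈ t, e u = 1 ∨ e u = -1) (f : X → U → ℤ) (k : X → ℤ)
    (hk : ∀ x ∈ s, ¬ ((2 * h + 1 : ℕ) : ℤ) ∣ k x)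
    (hf : ∀ x ∈ s, ∀ u ∈ t, ((2 * h + 1 : ℕ) : ℤ) ∣ e u * f x u - k x)
    (N : ℝ) (hN : N < h * t.card)
    (hB : ∀ a : X → ℤ, ∑ u ∈ t, ((∑ x ∈ s, a x * f x u : ℤ) : ℝ) ^ 2 ≤
      N * ∑ x ∈ s, (a x : ℝ) ^ 2) : s.card < h := by
  classical
  by_contra hcon
  push Not at hcon
  have hbal : ∀ x : X, ∃ c g : ℤ, x ∈ s → 1 ≤ c ∧ c ≤ h ∧ (g = 1 ∨ g = -1) ∧
      ((2 * h + 1 : ℕ) : ℤ) ∣ g * k x - c := by
    intro x
    by_cases hx : x ∈ s
    · obtain ⟨c, g, hcg⟩ := SPK_bal h (k x) (hk x hx)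
      exact ⟨c, g, fun _ => hcg⟩
    · exact ⟨0, 0, fun h => absurd h hx⟩
  choose c g hcg using hbal
  -- the Bessel inequality for a subset
  have hsub : ∀ s' : Finset X, s' ⊆ s → ∀ μ : ℤ, 0 ≤ μ → μ ≤ ∑ x ∈ s', c x →
      μ ≤ ((2 * h + 1 : ℕ) : ℤ) - ∑ x ∈ s', c x → (μ : ℝ) ^ 2 * t.card ≤ N * s'.card := by
    intro s' hs' μ hμ0 hμ1 hμ2
    have hb := hB (fun x => if x ∈ s' then g x else 0)
    have e1 : ∑ x ∈ s, (((if x ∈ s' then g x else 0 : ℤ)) : ℝ) ^ 2 = s'.card := by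
      have : ∀ x ∈ s, (((if x ∈ s' then g x else 0 : ℤ)) : ℝ) ^ 2 =
          if x ∈ s' then (1 : ℝ) else 0 := by
        intro x hx
        by_cases hx' : x ∈ s'
        · rcases (hcg x hx).2.2.1 with h1 | h1 <;> simp [hx', h1]
        · simp [hx']
      rw [Finset.sum_congr rfl this, Finset.sum_ite, Finset.sum_const_zero, add_zero,
        Finset.sum_const, nsmul_eq_mul, mul_one]
      congr 1
      have : s.filter (fun x => x ∈ s') = s' := by
        ext x
        simp only [Finset.mem_filter]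
        exact ⟨fun h => h.2, fun h => ⟨hs' h, h⟩⟩
      rw [this]
    rw [e1] at hb
    have e2 : (μ : ℝ) ^ 2 * t.card ≤
        ∑ u ∈ t, ((∑ x ∈ s, (if x ∈ s' then g x else 0) * f x u : ℤ) : ℝ) ^ 2 := by
      have : (μ : ℝ) ^ 2 * t.card = ∑ u ∈ t, (μ : ℝ) ^ 2 := by
        rw [Finset.sum_const, nsmul_eq_mul, mul_comm]
      rw [this]
      apply Finset.sum_le_sum
      intro u hu
      have hS : ∑ x ∈ s, (if x ∈ s' then g x else 0) * f x u = ∑ x ∈ s', g x * f x u := by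
        have h1 : ∀ x ∈ s, (if x ∈ s' then g x else 0) * f x u =
            if x ∈ s' then g x * f x u else 0 := by
          intro x _
          by_cases hx' : x ∈ s' <;> simp [hx']
        rw [Finset.sum_congr rfl h1, Finset.sum_ite, Finset.sum_const_zero, add_zero]
        apply Finset.sum_congr _ (fun _ _ => rfl)
        ext x
        simp only [Finset.mem_filter]
        exact ⟨fun h => h.2, fun h => ⟨hs' h, h⟩⟩
      rw [hS]
      have hd : ((2 * h + 1 : ℕ) : ℤ) ∣ e u * (∑ x ∈ s', g x * f x u) - ∑ x ∈ s', c x := by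
        have h2 : e u * (∑ x ∈ s', g x * f x u) - ∑ x ∈ s', c x =
            ∑ x ∈ s', (g x * (e u * f x u - k x) + (g x * k x - c x)) := by
          rw [Finset.mul_sum, ← Finset.sum_sub_distrib]
          apply Finset.sum_congr rfl
          intro x _
          ring
        rw [h2]
        apply Finset.dvd_sum
        intro x hx
        exact dvd_add (Dvd.dvd.mul_left (hf x (hs' hx) u hu) _) (hcg x (hs' hx)).2.2.2
      have := SPK_dist _ (e u) _ _ μ (he u hu) hd hμ0 hμ1 hμ2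
      exact_mod_cast this
    exact e2.trans hb
  -- `t` is not empty
  have hs0 : s.Nonempty := Finset.card_pos.mp (by omega)
  have ht0 : 0 < (t.card : ℝ) := by
    rcases Nat.eq_zero_or_pos t.card with h0 | h0
    · exfalso
      obtain ⟨x, hx⟩ := hs0
      have hb := hB (fun y => if y = x then 1 else 0)
      have ht : t = ∅ := Finset.card_eq_zero.mp h0
      rw [h0] at hN
      simp only [Nat.cast_zero, mul_zero] at hN
      rw [ht, Finset.sum_empty] at hb
      have e1 : ∑ y ∈ s, (((if y = x then 1 else 0 : ℤ)) : ℝ) ^ 2 = 1 := by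
        have : ∀ y ∈ s, (((if y = x then 1 else 0 : ℤ)) : ℝ) ^ 2 = if y = x then (1 : ℝ) else 0 := by
          intro y _
          by_cases hy : y = x <;> simp [hy]
        rw [Finset.sum_congr rfl this, Finset.sum_ite_eq' s x, if_pos hx]
      rw [e1] at hb
      linarith
    · exact_mod_cast h0
  -- the single characters
  have hsingle : ∀ x ∈ s, (c x) ^ 2 < h := by
    intro x hx
    have h1 := hsub {x} (Finset.singleton_subset_iff.mpr hx) (c x) (by linarith [(hcg x hx).1])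
      (by simp) (by
        rw [Finset.sum_singleton]
        push_cast
        linarith [(hcg x hx).2.1, (hcg x hx).1])
    rw [Finset.card_singleton, Nat.cast_one, mul_one] at h1
    have h2 : ((c x : ℤ) : ℝ) ^ 2 * t.card < h * t.card := lt_of_le_of_lt h1 hN
    have h3 := lt_of_mul_lt_mul_right h2 ht0.le
    exact_mod_cast h3
  -- the minimal subset
  have hfull : (h : ℤ) ≤ ∑ x ∈ s, c x := by
    calc (h : ℤ) ≤ s.card := by exact_mod_cast hcon
      _ = ∑ x ∈ s, (1 : ℤ) := by simp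
      _ ≤ ∑ x ∈ s, c x := Finset.sum_le_sum (fun x hx => (hcg x hx).1)
  obtain ⟨s', hs', hmin⟩ := Finset.exists_min_image
    (s.powerset.filter (fun s' => (h : ℤ) ≤ ∑ x ∈ s', c x)) Finset.card
    ⟨s, by rw [Finset.mem_filter, Finset.mem_powerset]; exact ⟨subset_rfl, hfull⟩⟩
  rw [Finset.mem_filter, Finset.mem_powerset] at hs'
  obtain ⟨hs's, hσ⟩ := hs'
  set σ : ℤ := ∑ x ∈ s', c x with hσdef
  have her : ∀ x ∈ s', σ - c x < h := by
    intro x hx
    by_contra hcc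
    push Not at hcc
    have h1 : ∑ y ∈ s'.erase x, c y = σ - c x := by
      have := Finset.add_sum_erase s' c hx
      rw [hσdef]; linarith
    have h2 := hmin (s'.erase x) (by
      rw [Finset.mem_filter, Finset.mem_powerset]
      exact ⟨(Finset.erase_subset _ _).trans hs's, by rw [h1]; exact hcc⟩)
    have h3 := Finset.card_erase_lt_of_mem hx
    omega
  have hs'0 : s'.Nonempty := by
    rw [Finset.nonempty_iff_ne_empty]
    intro h0
    rw [hσdef, h0, Finset.sum_empty] at hσ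
    omega
  obtain ⟨x₀, hx₀⟩ := hs'0
  set T : ℤ := σ - h + 1 with hT
  have hTc : ∀ x ∈ s', T ≤ c x := fun x hx => by have := her x hx; linarith
  have hT1 : 1 ≤ T := by linarith
  have hjT : (s'.card : ℤ) * T ≤ σ := by
    rw [hσdef]
    calc (s'.card : ℤ) * T = ∑ x ∈ s', T := by rw [Finset.sum_const, nsmul_eq_mul]
      _ ≤ ∑ x ∈ s', c x := Finset.sum_le_sum hTc
  have hTh : T ^ 2 < h := by
    have h1 := hsingle x₀ (hs's hx₀)
    have h2 := hTc x₀ hx₀
    nlinarith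
  have hj0 : (0 : ℝ) < s'.card := by
    exact_mod_cast Finset.card_pos.mpr ⟨x₀, hx₀⟩
  have hcard : ∀ μ : ℤ, 0 ≤ μ → μ ≤ σ → μ ≤ ((2 * h + 1 : ℕ) : ℤ) - σ → μ ^ 2 < h * s'.card := by
    intro μ h0 h1 h2
    have h3 := hsub s' hs's μ h0 h1 h2
    have h4 : (μ : ℝ) ^ 2 * t.card < (h * s'.card) * t.card := by
      calc (μ : ℝ) ^ 2 * t.card ≤ N * s'.card := h3
        _ < (h * t.card) * s'.card := mul_lt_mul_of_pos_right hN hj0
        _ = (h * s'.card) * t.card := by ring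
    have h5 := lt_of_mul_lt_mul_right h4 ht0.le
    exact_mod_cast h5
  have hσT : σ = h + T - 1 := by rw [hT]; ring
  have hh0 : (0 : ℤ) < h := by exact_mod_cast hh
  rcases eq_or_lt_of_le hT1 with h1 | h1
  · have h2 := hcard h (by positivity) (by linarith) (by push_cast; linarith)
    rw [← h1, mul_one] at hjT
    have h3 : σ = h := by linarith
    rw [h3] at hjT
    nlinarith
  · have hT2 : 2 ≤ T := by linarith
    have hTle : T ≤ h := by nlinarith
    have h2 := hcard (h + 2 - T) (by linarith) (by linarith) (by push_cast; linarith)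
    have h3 := SPK_arith h T hT2 hTh
    have h4 : T * (h + 2 - T) ^ 2 < T * (h * s'.card) := by
      apply mul_lt_mul_of_pos_left h2 (by linarith)
    have h5 : T * (h * s'.card) ≤ h * (h + T - 1) := by
      calc T * (h * s'.card) = h * (s'.card * T) := by ring
        _ ≤ h * σ := by apply mul_le_mul_of_nonneg_left hjT hh0.le
        _ = h * (h + T - 1) := by rw [hσT]
    linarith

/-- The numbers: `d = |D|`, `r = |D_reg|`, `n = |I|`, `2 * h + 1 = p`; if at most `(n - 1) * d / p` elements are not regular and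
`3 * n < p` then `n * d < h * r`. -/
theorem SPK_three (h n d r : ℕ) (hn : 1 ≤ n) (hd : 0 < d) (h3 : 3 * n < 2 * h + 1)
    (hr : (2 * h + 1) * d ≤ (2 * h + 1) * r + (n - 1) * d) : n * d < h * r := by
  obtain ⟨m, rfl⟩ : ∃ m, n = m + 1 := ⟨n - 1, by omega⟩
  simp only [Nat.add_sub_cancel] at hr
  have h1 : ((2 * h + 1 : ℤ)) * d ≤ (2 * h + 1) * r + m * d := by exact_mod_cast hr
  have h2 : (0 : ℤ) < d := by exact_mod_cast hd
  have h4 : 3 * (m : ℤ) + 3 ≤ 2 * h := by omega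
  have hm : (0 : ℤ) ≤ m := by positivity
  have h5 : (0 : ℤ) ≤ h := by positivity
  have key : (2 * (h : ℤ) + 1) * ((m + 1) * d) < (2 * h + 1) * (h * r) := by
    have a1 : (h : ℤ) * ((2 * h + 1) * d - m * d) ≤ (2 * h + 1) * (h * r) := by
      nlinarith [mul_le_mul_of_nonneg_left h1 h5]
    have a2 : (2 * (h : ℤ) + 1) * (m + 1) < h * (2 * h + 1 - m) := by nlinarith
    nlinarith [mul_lt_mul_of_pos_right a2 h2]
  have := lt_of_mul_lt_mul_left key (by positivity)
  exact_mod_cast this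

end Pool.Agent.FI4
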